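import Pool.Agent.Helper73.DC.St6

set_option autoImplicit false

namespace Pool.Agent.Helper28.DC

open Pool.Agent.Helper73.DC
open Finset
open scoped Classical

private theorem big_A2 (e C n : ℕ) (hn : 16 ≤ n) :
    (C * (RR e n + 1) + 1) * Nat.log 2 (n + 2) ≤ (2 * (4 * C * e + 2 * C + 1)) * (SSn n + 1) := by
  set μ := Nat.log 2 n with hμ
  set m := Nat.log 2 μ with hm
  have hμ4 : 4 ≤ μ := by
    rw [hμ]
    calc 4 = Nat.log 2 (2 ^ 4) := (Nat.log_pow (by norm_num) 4).symm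
      _ ≤ Nat.log 2 n := Nat.log_mono_right (by omega)
  have hlog : Nat.log 2 (n + 2) ≤ μ + 1 := by
    have h1 : Nat.log 2 (n + 2) ≤ Nat.log 2 (n * 2) := Nat.log_mono_right (by omega)
    rw [Nat.log_mul_base (by norm_num) (by omega)] at h1
    exact h1
  have hlog2 : μ ≤ Nat.log 2 (n + 2) := Nat.log_mono_right (by omega)
  have hlam : lam n ≤ 2 * μ := by unfold lam; omega
  have hlam2 : μ ≤ lam n := by unfold lam; omega
  have hl : m ≤ lll n := Nat.log_mono_right hlam2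
  have hm1 : m + 1 ≤ μ := Nat.log_lt_self 2 (by omega)
  set q := (e * lam n) / eee n with hq
  have hRR : RR e n + 1 = q + 2 := by unfold RR; rfl
  have hq1 : q * (m + 1) ≤ 4 * e * μ := by
    have h1 : m + 1 ≤ 2 * eee n := by unfold eee; omega
    have h2 : q * eee n ≤ e * lam n := Nat.div_mul_le_self _ _
    calc q * (m + 1) ≤ q * (2 * eee n) := Nat.mul_le_mul_left _ h1
      _ = 2 * (q * eee n) := by ring
      _ ≤ 2 * (e * lam n) := Nat.mul_le_mul_left _ h2
      _ ≤ 2 * (e * (2 * μ)) := Nat.mul_le_mul_left _ (Nat.mul_le_mul_left _ hlam)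
      _ = 4 * e * μ := by ring
  have hS : μ ^ 2 ≤ (SSn n + 1) * (m + 1) := by
    have h1 : SSn n = μ ^ 2 / (m + 1) := rfl
    rw [h1]
    have := Nat.lt_div_mul_add (a := μ ^ 2) (b := m + 1) (by omega)
    nlinarith
  have hlog3 : Nat.log 2 (n + 2) ≤ 2 * μ := by omega
  rw [hRR]
  have key : (C * (q + 2) + 1) * Nat.log 2 (n + 2) * (m + 1) ≤
      (2 * (4 * C * e + 2 * C + 1)) * (SSn n + 1) * (m + 1) := by
    calc (C * (q + 2) + 1) * Nat.log 2 (n + 2) * (m + 1)
        = (C * (q * (m + 1)) + (2 * C + 1) * (m + 1)) * Nat.log 2 (n + 2) := by ring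
      _ ≤ (C * (4 * e * μ) + (2 * C + 1) * μ) * (2 * μ) := by gcongr
      _ = (2 * (4 * C * e + 2 * C + 1)) * μ ^ 2 := by ring
      _ ≤ (2 * (4 * C * e + 2 * C + 1)) * ((SSn n + 1) * (m + 1)) := Nat.mul_le_mul_left _ hS
      _ = _ := by ring
  exact Nat.le_of_mul_le_mul_right key (by omega)

theorem mA2 : StA2 := by
  intro e C
  refine ⟨2 * (4 * C * e + 2 * C + 1) +
    ∑ n ∈ Finset.range 16, (C * (RR e n + 1) + 1) * Nat.log 2 (n + 2), fun n => ?_⟩
  by_cases hn : n < 16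
  · have h1 := Finset.single_le_sum
      (f := fun n => (C * (RR e n + 1) + 1) * Nat.log 2 (n + 2)) (fun i _ => Nat.zero_le _)
      (Finset.mem_range.2 hn)
    exact h1.trans ((Nat.le_add_left _ _).trans (Nat.le_add_left _ _))
  · refine (big_A2 e C n (by omega)).trans ?_
    rw [← Nat.mul_succ]
    exact Nat.mul_le_mul_right _ (Nat.le_add_right _ _)

end Pool.Agent.Helper28.DC
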