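import Pool.Agent.Helper73.DC.St3

set_option autoImplicit false

namespace Pool.Agent.Helper28.DC

open Pool.Agent.Helper73.DC
open Finset
open scoped Classical

private theorem F2_lt {α : Type} (w : List α) (p : ℕ → ℕ) (t : ℕ) (c : Cmd α) (y : ℕ) :
    (fnd w p t c y).1 < sz c := by
  induction c generalizing y with
  | asg i F => simp [fnd, sz]
  | glb F => simp [fnd, sz]
  | seq c d ihc ihd =>
    simp only [fnd, sz]
    split_ifs with h
    · have := ihc y
      omega
    · have := ihd (y - tm w p t c)
      simp only
      omega
  | rep n c ih => exact ih _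
  | call i j =>
    simp only [fnd, sz]
    split_ifs <;> norm_num

private theorem F2_mu {α : Type} (w : List α) (p : ℕ → ℕ) (m t : ℕ) (sub : ℕ → FS → FS) (r : ℕ)
    (c : Cmd α) (y : ℕ) (s : FS) :
    mu w p m t sub r c y s = if low c (fnd w p t c y).1 then sub (fnd w p t c y).2 s
      else mic w p m r c (fnd w p t c y).1 s := by
  induction c generalizing y with
  | asg i F => simp [mu, fnd, low, mic]
  | glb F => simp [mu, fnd, low, mic]
  | seq c d ihc ihd =>
    by_cases h : y < tm w p t c
    · have e : fnd w p t (Cmd.seq c d) y = fnd w p t c y := by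
        simp only [fnd, if_pos h]
      have hl := F2_lt w p t c y
      rw [e]
      simp only [mu, low, mic, if_pos h, if_pos hl]
      exact ihc y
    · have e : fnd w p t (Cmd.seq c d) y =
          (sz c + (fnd w p t d (y - tm w p t c)).1, (fnd w p t d (y - tm w p t c)).2) := by
        simp only [fnd, if_neg h]
      rw [e]
      have h2 : ¬ (sz c + (fnd w p t d (y - tm w p t c)).1 < sz c) := by omega
      simp only [mu, low, mic, if_neg h, if_neg h2, Nat.add_sub_cancel_left]
      exact ihd _
  | rep n c ih =>
    simp only [mu, fnd, low, mic]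
    exact ih _
  | call i j =>
    by_cases h : y = 0
    · simp [mu, fnd, low, mic, h]
    · by_cases h2 : y ≤ t
      · simp [mu, fnd, low, h, h2]
      · simp [mu, fnd, low, mic, h, h2]

theorem mF2 : StF2 := by
  intro α w p m bs body R y s
  induction R generalizing y with
  | zero =>
    have e : (dsc w p body)^[0 + 1] (0, y, 0) = (0, y, 1) := by
      simp [dsc]
    rw [e]
    refine ⟨le_rfl, ?_⟩
    simp [MU]
  | succ r ih =>
    rw [Function.iterate_succ_apply]
    by_cases hl : low body (fnd w p (Tot w p body r) body y).1
    · have e : dsc w p body (r + 1, y, 0) = (r, (fnd w p (Tot w p body r) body y).2, 0) := by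
        simp [dsc, hl]
      rw [e]
      obtain ⟨h1, h2⟩ := ih (fnd w p (Tot w p body r) body y).2
      refine ⟨h1.trans (Nat.le_succ r), ?_⟩
      rw [← h2]
      show mu w p m (Tot w p body r) (MU w p m bs body r) (r + 1) body y s = _
      rw [F2_mu, if_pos hl]
    · have e : dsc w p body (r + 1, y, 0) =
          (r + 1, y, (fnd w p (Tot w p body r) body y).1 + 1) := by
        simp [dsc, hl]
      have e2 : dsc w p body (r + 1, y, (fnd w p (Tot w p body r) body y).1 + 1) =
          (r + 1, y, (fnd w p (Tot w p body r) body y).1 + 1) := by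
        simp [dsc]
      rw [e, Function.iterate_fixed e2]
      refine ⟨le_rfl, ?_⟩
      rw [if_neg (Nat.succ_ne_zero r)]
      show mu w p m (Tot w p body r) (MU w p m bs body r) (r + 1) body y s = _
      rw [F2_mu, if_neg hl]
      rfl

end Pool.Agent.Helper28.DC
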