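import Pool.Agent.Helper73.DC.St5

set_option autoImplicit false

namespace Pool.Agent.Helper28.DC

open Pool.Agent.Helper73.DC
open Finset
open scoped Classical

private theorem lo_ctx_P3 (i r g : ℕ) (l p : ℕ → ℕ) (hi : i < 40) : lo i (ctx 40 r g l p) = l i := by
  unfold lo ctx
  have : 2 + i = (i + 1) + 1 := by omega
  rw [this]
  show (cat 40 l p) i = l i
  unfold cat
  rw [if_pos hi]

private theorem pa_ctx_P3 (j r g : ℕ) (l p : ℕ → ℕ) : pa j (ctx 40 r g l p) = p j := by
  unfold pa ctx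
  have : 42 + j = ((40 + j) + 1) + 1 := by omega
  rw [this]
  show (cat 40 l p) (40 + j) = p j
  unfold cat
  rw [if_neg (by omega)]
  congr 1
  omega

section
variable {α : Type} (w : List α) (p : ℕ → ℕ) (cb : ℕ → ℕ → ℕ × ℕ) (r : ℕ)

private theorem sem_cons_P3 (c : Cmd α) (cs : List (Cmd α)) (s : (ℕ → ℕ) × ℕ) :
    sem w p 40 cb r (sq (c :: cs)) s = sem w p 40 cb r (sq cs) (sem w p 40 cb r c s) := rfl

private theorem sem_nil_P3 (s : (ℕ → ℕ) × ℕ) :
    sem w p 40 cb r (sq ([] : List (Cmd α))) s = s := rfl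

private theorem sem_asg_P3 (i : ℕ) (F : VF α) (l : ℕ → ℕ) (g : ℕ) :
    sem w p 40 cb r (Cmd.asg i F) (l, g) =
      (Function.update l i (F w (ctx 40 r g l p) % p 0), g) := rfl

end

theorem mP3 : StP1 → StP2 → StP3 := by
  intro h1 h2 α cl rs w p f cb r g l hP hO hl hg
  have hp2 : 0 < p 2 := by have := hP.hD; omega
  have h25 : p 2 ≤ p 5 := (Nat.le_self_pow (by norm_num) (p 2)).trans hP.hM0
  have h50 := hP.hQM
  have hdg : ∀ x i, dg (p 2) x i < p 2 := fun x i => Nat.mod_lt _ hp2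
  have hdgm : ∀ x i, dg (p 2) x i % p 0 = dg (p 2) x i := fun x i =>
    Nat.mod_eq_of_lt (by have := hdg x i; omega)
  have hdgm' : ∀ x i, (dg (p 2) x i - 1) % p 0 = dg (p 2) x i - 1 := fun x i =>
    Nat.mod_eq_of_lt (by have := hdg x i; omega)
  have hq : ∀ x, x % p 5 % p 0 = x % p 5 := fun x =>
    Nat.mod_eq_of_lt (by have := Nat.mod_lt x (show 0 < p 5 by omega); omega)
  rw [gamP]
  simp only [sem_cons_P3, sem_nil_P3, sem_asg_P3]
  simp only [lo_ctx_P3 _ _ _ _ _ (show (18:ℕ) < 40 by norm_num), pa_ctx_P3]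
  simp only [Function.update_of_ne (show (18:ℕ) ≠ 30 by norm_num),
    Function.update_of_ne (show (18:ℕ) ≠ 31 by norm_num), hdgm, hdgm', Nat.zero_mod]
  set l4 : ℕ → ℕ := Function.update (Function.update (Function.update (Function.update l 30
    (dg (p 2) (l 18) 0)) 31 (dg (p 2) (l 18) 1)) 32 (dg (p 2) (l 18) 2 - 1)) 33 0 with hl4
  have k30 : l4 30 = dg (p 2) (l 18) 0 := by simp [hl4, Function.update]
  have k31 : l4 31 = dg (p 2) (l 18) 1 := by simp [hl4, Function.update]
  have k32 : l4 32 = dg (p 2) (l 18) 2 - 1 := by simp [hl4, Function.update]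
  have k33 : l4 33 = 0 := by simp [hl4]
  have ko : ∀ i, i ≠ 30 → i ≠ 31 → i ≠ 32 → i ≠ 33 → l4 i = l i := by
    intro i a b c d
    simp [hl4, Function.update, a, b, c, d]
  have kl : ∀ i, l4 i < p 0 := by
    intro i
    have a0 := hdg (l 18) 0
    have a1 := hdg (l 18) 1
    have a2 := hdg (l 18) 2
    by_cases e0 : i = 30
    · rw [e0, k30]; omega
    by_cases e1 : i = 31
    · rw [e1, k31]; omega
    by_cases e2 : i = 32
    · rw [e2, k32]; omega
    by_cases e3 : i = 33
    · rw [e3, k33]; omega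
    rw [ko i e0 e1 e2 e3]; exact hl i
  obtain ⟨b1, b2, b3, b4, b5, b6⟩ := h2 cl rs w p f cb r g l4 hP hO kl hg k33
  clear_value l4
  generalize sem w p 40 cb r (popP cl rs) (l4, g) = S at *
  obtain ⟨l5, g5⟩ := S
  dsimp only at b1 b2 b3 b4 b5 b6
  subst b1
  simp only [sem_asg_P3]
  simp only [lo_ctx_P3 _ _ _ _ _ (show (32:ℕ) < 40 by norm_num), Nat.zero_mod,
    Nat.mod_eq_of_lt (b2 32)]
  set l7 : ℕ → ℕ := Function.update (Function.update l5 21 (l5 32)) 25 0 with hl7
  have m21 : l7 21 = l5 32 := by simp [hl7, Function.update]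
  have m25 : l7 25 = 0 := by simp [hl7]
  have mo : ∀ i, i ≠ 21 → i ≠ 25 → l7 i = l5 i := by
    intro i a b
    simp [hl7, Function.update, a, b]
  have ml : ∀ i, l7 i < p 0 := by
    intro i
    by_cases e0 : i = 21
    · rw [e0, m21]; exact b2 32
    by_cases e1 : i = 25
    · rw [e1, m25]; omega
    rw [mo i e0 e1]; exact b2 i
  obtain ⟨c1, c2, c3, c4, c5, c6, c7⟩ := h1 cl rs w p f cb r g5 l7 hP hO ml hg
  clear_value l7
  generalize sem w p 40 cb r (walkP cl rs) (l7, g5) = S at *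
  obtain ⟨l8, g8⟩ := S
  dsimp only at c1 c2 c3 c4 c5 c6 c7
  subst c1
  simp only [sem_asg_P3]
  -- values
  have v : ∀ i, i ∉ ({21, 22, 23, 24, 25, 26, 27, 28, 29} : Finset ℕ) → l8 i = l5 i := by
    intro i hi
    simp only [Finset.mem_insert, Finset.mem_singleton, not_or] at hi
    rw [c3 i (by simp only [Finset.mem_insert, Finset.mem_singleton, not_or]; tauto),
      mo i (by tauto) (by tauto)]
  have v' : ∀ i, i < 20 ∨ 34 < i → l8 i = l i := by
    intro i hi
    rw [v i (by simp only [Finset.mem_insert, Finset.mem_singleton, not_or]; omega),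
      b3 i (by simp only [Finset.mem_insert, Finset.mem_singleton, not_or]; omega),
      ko i (by omega) (by omega) (by omega) (by omega)]
  have v31 := v 31 (by decide)
  have v32 := v 32 (by decide)
  have v33 := v 33 (by decide)
  refine ⟨trivial, ?_, ?_, ?_⟩
  · intro i
    by_cases e : i = 20
    · subst e
      rw [Function.update_self]
      exact Nat.mod_lt _ (by omega)
    · rw [Function.update_of_ne e]
      exact c2 i
  · intro i hi
    rw [Function.update_of_ne (by omega)]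
    exact v' i hi
  · rw [Function.update_self]
    simp only [lo_ctx_P3 _ _ _ _ _ (show (5:ℕ) < 40 by norm_num),
      lo_ctx_P3 _ _ _ _ _ (show (15:ℕ) < 40 by norm_num),
      lo_ctx_P3 _ _ _ _ _ (show (18:ℕ) < 40 by norm_num),
      lo_ctx_P3 _ _ _ _ _ (show (19:ℕ) < 40 by norm_num),
      lo_ctx_P3 _ _ _ _ _ (show (22:ℕ) < 40 by norm_num),
      lo_ctx_P3 _ _ _ _ _ (show (23:ℕ) < 40 by norm_num),
      lo_ctx_P3 _ _ _ _ _ (show (31:ℕ) < 40 by norm_num),
      lo_ctx_P3 _ _ _ _ _ (show (32:ℕ) < 40 by norm_num),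
      lo_ctx_P3 _ _ _ _ _ (show (33:ℕ) < 40 by norm_num), pa_ctx_P3, hq]
    rw [v' 5 (by norm_num), v' 15 (by norm_num), v' 18 (by norm_num), v' 19 (by norm_num), v31, v32,
      v33, c5, c6, m21, m25, b4, b5, b6, k30, k31, k32]
    rfl

end Pool.Agent.Helper28.DC
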